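import Pool.Agent.R317.Prod

set_option autoImplicit false

/-!
# No choice of a nonconstant periodic coefficient makes the solutions tend to `(k+2)`-periodic ones
-/

open Pool.Agent.R317.Prod

namespace Pool.Agent.Results.MP_93a94a_an.NeverPeriodic

/-- `IsPosSol k α X`: `X` is a positive solution of `(E)`, with `X i` the term `x_{i-(2k+2)}`;
`TendsToPer k X`: there is a positive sequence `Y` with `Y (n + (k + 2)) = Y n` and `X - Y → 0` -/
theorem result (k p : ℕ) (hp : 2 ≤ p) (α : ℕ → ℝ) (hα : ∀ n, 0 ≤ α n)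
    (hper : ∀ n, α (n + p) = α n) (hmin : ∀ q, 1 ≤ q → q < p → ¬ ∀ n, α (n + q) = α n) :
    (∃ X, IsPosSol k α X) ∧ ∀ X, IsPosSol k α X → ¬ TendsToPer k X :=
  ⟨exists_sol k α hα, fun X hX hT =>
    hmin 1 le_rfl (by omega) (const_of_tends k p (by omega) α X hper hX hT)⟩

end Pool.Agent.Results.MP_93a94a_an.NeverPeriodic
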